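import Mathlib

/-!
# Relaxation time of simple random walk: the path is extremal

Main estimate: for every connected graph with `m ≥ 1` edges and every function `f` there is `c` with
`(1 - cos (π / (m + 2))) ∑ deg v (f v - c)^2 ≤ ∑_{edges uv} (f u - f v)^2`.

Proof.  Let `c` be a median of `f` with respect to the degrees; treat the positive and negative
parts `g` of `f - c` separately.  Write the values of `g` at the half-edges in decreasing order
`w 0 ≥ w 1 ≥ ...`; at most `m` of them are positive.  Between `w (2 i + 2)` and `w (2 i)` there is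
at most one half-edge, and therefore (the graph is connected) some edge jumps over the whole
interval.  So the Dirichlet form of `g` is at least `∑ (w (2 i) - w (2 i + 2))^2`, and the
inequality of Fan, Taussky and Todd applies to the sequence `w (2 i)`.
-/

set_option autoImplicit false

namespace Pool.Agent.Y917.RT

open Finset

/-! ### The inequality of Fan, Taussky and Todd -/

noncomputable def S (θ : ℝ) (k : ℕ) : ℝ := Real.cos (k * θ - θ / 2)

lemma S_rec (θ : ℝ) (k : ℕ) : S θ k + S θ (k + 2) = 2 * Real.cos θ * S θ (k + 1) := by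
  unfold S
  have h1 : ((k : ℕ) : ℝ) * θ - θ / 2 = (((k + 1 : ℕ) : ℝ) * θ - θ / 2) - θ := by push_cast; ring
  have h2 : ((k + 2 : ℕ) : ℝ) * θ - θ / 2 = (((k + 1 : ℕ) : ℝ) * θ - θ / 2) + θ := by
    push_cast; ring
  rw [h1, h2, Real.cos_sub, Real.cos_add]
  ring

lemma S_zero_one (θ : ℝ) : S θ 0 = S θ 1 := by
  unfold S
  rw [← Real.cos_neg]
  congr 1
  push_cast; ring

lemma S_pos (L : ℕ) (hL : 1 ≤ L) (k : ℕ) (hk : k ≤ L) :
    0 < S (Real.pi / (2 * L + 1)) k := by
  unfold S
  have hπ := Real.pi_pos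
  have hd : (0 : ℝ) < 2 * L + 1 := by positivity
  have hLr : (1 : ℝ) ≤ L := by exact_mod_cast hL
  have hkr : (k : ℝ) ≤ L := by exact_mod_cast hk
  have hk0 : (0 : ℝ) ≤ k := Nat.cast_nonneg k
  have e : (k : ℝ) * (Real.pi / (2 * L + 1)) - Real.pi / (2 * L + 1) / 2 =
      (2 * k - 1) / (2 * L + 1) * (Real.pi / 2) := by
    field_simp
  rw [e]
  apply Real.cos_pos_of_mem_Ioo
  have h1 : (2 * (k : ℝ) - 1) / (2 * L + 1) < 1 := by
    rw [div_lt_one hd]; linarith
  have h2 : -1 < (2 * (k : ℝ) - 1) / (2 * L + 1) := by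
    rw [lt_div_iff₀ hd]; linarith
  constructor
  · nlinarith
  · nlinarith

lemma S_last (L : ℕ) : S (Real.pi / (2 * L + 1)) (L + 1) = 0 := by
  unfold S
  have hd : (0 : ℝ) < 2 * L + 1 := by positivity
  have e : ((L + 1 : ℕ) : ℝ) * (Real.pi / (2 * L + 1)) - Real.pi / (2 * L + 1) / 2 =
      Real.pi / 2 := by
    push_cast
    field_simp
    ring
  rw [e, Real.cos_pi_div_two]

/-- Fan, Taussky, Todd 1955 -/
theorem ftt (L : ℕ) (hL : 1 ≤ L) (c : ℕ → ℝ) (hc : c L = 0) :
    (2 - 2 * Real.cos (Real.pi / (2 * L + 1))) * ∑ i ∈ range L, c i ^ 2 ≤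
      ∑ i ∈ range L, (c i - c (i + 1)) ^ 2 := by
  set θ : ℝ := Real.pi / (2 * L + 1) with hθ
  have key : ∀ k, k < L → (2 - 2 * Real.cos θ) * ∑ i ∈ range k, c i ^ 2 +
      (1 - S θ k / S θ (k + 1)) * c k ^ 2 ≤ ∑ i ∈ range k, (c i - c (i + 1)) ^ 2 := by
    intro k
    induction k with
    | zero =>
      intro h
      have h1 : 0 < S θ 1 := S_pos L hL 1 hL
      rw [S_zero_one, div_self h1.ne']
      simp
    | succ k ih =>
      intro h
      have ih' := ih (by omega)
      rw [sum_range_succ, sum_range_succ]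
      have h1 : 0 < S θ (k + 1) := S_pos L hL (k + 1) (by omega)
      have h2 : 0 < S θ (k + 2) := S_pos L hL (k + 2) (by omega)
      have hr := S_rec θ k
      have hcos : 2 * Real.cos θ = S θ k / S θ (k + 1) + S θ (k + 2) / S θ (k + 1) := by
        rw [← add_div, hr]; field_simp
      set ρ : ℝ := S θ (k + 2) / S θ (k + 1) with hρ
      have hρ0 : 0 < ρ := div_pos h2 h1
      have hinv : S θ (k + 1) / S θ (k + 1 + 1) = 1 / ρ := by
        rw [hρ]; field_simp
      rw [hinv]
      have h3 : (c k - c (k + 1)) ^ 2 + (1 - S θ k / S θ (k + 1)) * c k ^ 2 -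
          ((2 - 2 * Real.cos θ) * c k ^ 2 + (1 - 1 / ρ) * c (k + 1) ^ 2) =
          (ρ * c k - c (k + 1)) ^ 2 / ρ := by
        rw [hcos]; field_simp; ring
      have h4 : 0 ≤ (ρ * c k - c (k + 1)) ^ 2 / ρ := by positivity
      nlinarith
  obtain ⟨k, rfl⟩ : ∃ k, L = k + 1 := ⟨L - 1, by omega⟩
  have h1 := key k (by omega)
  rw [sum_range_succ, sum_range_succ, hc]
  have h2 : 0 < S θ (k + 1) := S_pos (k + 1) hL (k + 1) le_rfl
  have h3 : S θ (k + 2) = 0 := S_last (k + 1)
  have hr := S_rec θ k
  rw [h3, add_zero] at hr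
  have hcos : S θ k / S θ (k + 1) = 2 * Real.cos θ := by
    rw [hr]; field_simp
  rw [hcos] at h1
  nlinarith

/-! ### Clipping -/

def clip (lo hi x : ℝ) : ℝ := min (max x lo) hi

lemma clip_mono (lo hi : ℝ) : Monotone (clip lo hi) := by
  intro x y h
  unfold clip
  exact min_le_min (max_le_max h le_rfl) le_rfl

lemma clip_lip (lo hi x y : ℝ) (h : y ≤ x) : clip lo hi x - clip lo hi y ≤ x - y := by
  unfold clip
  have h1 : max x lo ≤ max y lo + (x - y) := by
    refine max_le ?_ ?_
    · have := le_max_left y lo; linarith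
    · have := le_max_right y lo; linarith
  rcases le_total (max y lo) hi with h2 | h2
  · rw [min_eq_left h2]
    have := min_le_left (max x lo) hi
    linarith
  · rw [min_eq_right h2]
    have := min_le_right (max x lo) hi
    linarith

lemma clip_split (a b d x : ℝ) (h1 : b ≤ a) (h2 : d ≤ b) :
    clip b a x + clip d b x = clip d a x + b := by
  unfold clip
  rcases le_total x b with h | h
  · rw [max_eq_right h, min_eq_left h1]
    have h3 : max x d ≤ b := max_le h h2
    rw [min_eq_left h3, min_eq_left (h3.trans h1)]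
    ring
  · rw [max_eq_left h, max_eq_left (h2.trans h), min_eq_right h]

lemma clip_sum (a : ℕ → ℝ) (ha : Antitone a) (x : ℝ) (L : ℕ) :
    ∑ i ∈ range L, clip (a (i + 1)) (a i) x = clip (a L) (a 0) x + ∑ i ∈ range L, a i - a 0 := by
  induction L with
  | zero =>
    have : clip (a 0) (a 0) x = a 0 := by
      unfold clip; exact min_eq_right (le_max_right _ _)
    simp [this]
  | succ L ih =>
    rw [sum_range_succ, sum_range_succ, ih]
    have := clip_split (a 0) (a L) (a (L + 1)) x (ha (Nat.zero_le _)) (ha (Nat.le_succ L))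
    linarith

lemma clip_pair' (a : ℕ → ℝ) (ha : Antitone a) (L : ℕ) (x y : ℝ) (h : y ≤ x) :
    ∑ i ∈ range L, (clip (a (i + 1)) (a i) x - clip (a (i + 1)) (a i) y) ^ 2 ≤ (x - y) ^ 2 := by
  set t : ℕ → ℝ := fun i => clip (a (i + 1)) (a i) x - clip (a (i + 1)) (a i) y with ht
  have h0 : ∀ i, 0 ≤ t i := fun i => sub_nonneg.mpr (clip_mono _ _ h)
  set T : ℝ := ∑ i ∈ range L, t i with hT
  have h1 : T ≤ x - y := by
    have : T = clip (a L) (a 0) x - clip (a L) (a 0) y := by
      rw [hT, ht, sum_sub_distrib, clip_sum a ha, clip_sum a ha]; ring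
    rw [this]
    exact clip_lip _ _ _ _ h
  have hT0 : 0 ≤ T := sum_nonneg fun i _ => h0 i
  calc ∑ i ∈ range L, t i ^ 2 ≤ ∑ i ∈ range L, t i * T := by
        refine sum_le_sum fun i hi => ?_
        rw [sq]
        exact mul_le_mul_of_nonneg_left (single_le_sum (fun j _ => h0 j) hi) (h0 i)
    _ = T ^ 2 := by rw [← sum_mul, sq]
    _ ≤ (x - y) ^ 2 := pow_le_pow_left₀ hT0 h1 2

lemma clip_pair (a : ℕ → ℝ) (ha : Antitone a) (L : ℕ) (x y : ℝ) :
    ∑ i ∈ range L, (clip (a (i + 1)) (a i) x - clip (a (i + 1)) (a i) y) ^ 2 ≤ (x - y) ^ 2 := by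
  rcases le_total y x with h | h
  · exact clip_pair' a ha L x y h
  · have := clip_pair' a ha L y x h
    calc _ = ∑ i ∈ range L, (clip (a (i + 1)) (a i) y - clip (a (i + 1)) (a i) x) ^ 2 :=
          sum_congr rfl fun i _ => by ring
      _ ≤ (y - x) ^ 2 := this
      _ = _ := by ring

/-! ### Graphs -/

section graph
variable {V : Type*} [Fintype V] [DecidableEq V] (G : SimpleGraph V) [DecidableRel G.Adj]

/-- the Dirichlet form `∑_{edges uv} (g u - g v)^2` -/
noncomputable def En (g : V → ℝ) : ℝ :=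
  (1 / 2 : ℝ) * ∑ u, ∑ v, (if G.Adj u v then (g u - g v) ^ 2 else 0)

lemma En_nonneg (g : V → ℝ) : 0 ≤ En G g := by
  unfold En
  refine mul_nonneg (by norm_num) (sum_nonneg fun u _ => sum_nonneg fun v _ => ?_)
  split_ifs
  · positivity
  · exact le_rfl

lemma En_ge (g : V → ℝ) (u v : V) (h : G.Adj u v) : (g u - g v) ^ 2 ≤ En G g := by
  unfold En
  set F : V → V → ℝ := fun u v => if G.Adj u v then (g u - g v) ^ 2 else 0 with hF
  have hF0 : ∀ a b, 0 ≤ F a b := by
    intro a b; rw [hF]; dsimp only; split_ifs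
    · positivity
    · exact le_rfl
  have h1 : ∀ a b, F a b ≤ ∑ y, F a y := fun a b =>
    single_le_sum (f := fun y => F a y) (fun y _ => hF0 a y) (mem_univ b)
  have hne : u ≠ v := h.ne
  have h2 : ∑ x ∈ ({u, v} : Finset V), ∑ y, F x y ≤ ∑ x, ∑ y, F x y :=
    sum_le_sum_of_subset_of_nonneg (subset_univ _) fun x _ _ => sum_nonneg fun y _ => hF0 x y
  rw [sum_pair hne] at h2
  have h3 : F u v = (g u - g v) ^ 2 := by rw [hF]; dsimp only; rw [if_pos h]
  have h4 : F v u = (g u - g v) ^ 2 := by rw [hF]; dsimp only; rw [if_pos h.symm]; ring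
  have h5 := h1 u v
  have h6 := h1 v u
  rw [h3] at h5
  rw [h4] at h6
  linarith

lemma En_split (g : V → ℝ) (a : ℕ → ℝ) (ha : Antitone a) (L : ℕ) :
    ∑ i ∈ range L, En G (fun v => clip (a (i + 1)) (a i) (g v)) ≤ En G g := by
  unfold En
  rw [← mul_sum]
  refine mul_le_mul_of_nonneg_left ?_ (by norm_num)
  rw [sum_comm]
  refine sum_le_sum fun u _ => ?_
  rw [sum_comm]
  refine sum_le_sum fun v _ => ?_
  by_cases h : G.Adj u v
  · simp only [if_pos h]
    exact clip_pair a ha L (g u) (g v)
  · simp [if_neg h]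

lemma sum_dart (φ : V → ℝ) : ∑ d : G.Dart, φ d.fst = ∑ v, (G.degree v : ℝ) * φ v := by
  rw [← Finset.sum_fiberwise (s := (univ : Finset G.Dart)) (g := fun d => d.fst)]
  refine sum_congr rfl fun v _ => ?_
  have h1 : ∑ d ∈ univ.filter (fun d : G.Dart => d.fst = v), φ d.fst =
      ∑ d ∈ univ.filter (fun d : G.Dart => d.fst = v), φ v := by
    refine sum_congr rfl fun d hd => ?_
    rw [(mem_filter.mp hd).2]
  rw [h1, sum_const, nsmul_eq_mul, G.dart_fst_fiber_card_eq_degree]

/-- sorting -/
lemma exists_sort {D : Type*} [Fintype D] (f : D → ℝ) :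
    ∃ e : Fin (Fintype.card D) ≃ D, Antitone (fun j => f (e j)) := by
  classical
  let e0 := (Fintype.equivFin D).symm
  let z : Fin (Fintype.card D) → ℝ := fun j => - f (e0 j)
  refine ⟨(Tuple.sort z).trans e0, ?_⟩
  have h := Tuple.monotone_sort z
  intro i j hij
  have := h hij
  simp only [Function.comp, z] at this
  simp only [Equiv.trans_apply]
  linarith

lemma sum_pairs (a : ℕ → ℝ) (L : ℕ) :
    ∑ j ∈ range (2 * L), a j = ∑ i ∈ range L, (a (2 * i) + a (2 * i + 1)) := by
  induction L with
  | zero => simp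
  | succ L ih =>
    rw [show 2 * (L + 1) = 2 * L + 1 + 1 by ring, sum_range_succ, sum_range_succ, ih,
      sum_range_succ]
    ring

/-- half-edges at vertices with `g > 0`: at most `2 L` -/
theorem core (hG : G.Connected) (g : V → ℝ) (hg : ∀ v, 0 ≤ g v) (L : ℕ) (hL : 1 ≤ L)
    (hcard : (univ.filter (fun d : G.Dart => 0 < g d.fst)).card ≤ 2 * L) (h0 : ∃ v, g v = 0) :
    (1 - Real.cos (Real.pi / (2 * L + 1))) * ∑ d : G.Dart, g d.fst ^ 2 ≤ En G g := by
  set N := Fintype.card G.Dart with hN
  obtain ⟨e, he⟩ : ∃ e : Fin N ≃ G.Dart, Antitone (fun j => g (e j).fst) :=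
    exists_sort (fun d : G.Dart => g d.fst)
  let w : ℕ → ℝ := fun j => if h : j < N then g (e ⟨j, h⟩).fst else 0
  have hw0 : ∀ j, 0 ≤ w j := by
    intro j; simp only [w]; split_ifs
    · exact hg _
    · exact le_rfl
  have hwa : Antitone w := by
    intro i j hij
    by_cases hj : j < N
    · have hi : i < N := lt_of_le_of_lt hij hj
      simp only [w, dif_pos hj, dif_pos hi]
      exact he (Fin.mk_le_mk.mpr hij)
    · have : w j = 0 := by simp only [w, dif_neg hj]
      rw [this]; exact hw0 i
  have hw2 : ∀ j, 2 * L ≤ j → w j = 0 := by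
    intro j hj
    by_contra hne
    have hpos : 0 < w j := lt_of_le_of_ne (hw0 j) (Ne.symm hne)
    have hjN : j < N := by
      by_contra hc; exact hne (by simp only [w, dif_neg hc])
    let φ : Fin (j + 1) → G.Dart := fun i => e ⟨i, by have := i.2; omega⟩
    have hφ : Function.Injective φ := by
      intro a b hab
      have := e.injective hab
      simpa [Fin.ext_iff] using this
    have h1 : (univ.image φ) ⊆ univ.filter (fun d : G.Dart => 0 < g d.fst) := by
      intro d hd
      obtain ⟨i, -, rfl⟩ := mem_image.mp hd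
      rw [mem_filter]
      refine ⟨mem_univ _, ?_⟩
      have h2 : w j ≤ w i := hwa (by have := i.2; omega)
      have h3 : w i = g (φ i).fst := by
        simp only [w, φ]
        rw [dif_pos (by have := i.2; omega)]
      rw [← h3]
      linarith
    have h2 := card_le_card h1
    rw [card_image_of_injective _ hφ, card_univ, Fintype.card_fin] at h2
    omega
  -- the mass
  have hmass : ∑ d : G.Dart, g d.fst ^ 2 ≤ 2 * ∑ i ∈ range L, w (2 * i) ^ 2 := by
    have h1 : ∑ d : G.Dart, g d.fst ^ 2 = ∑ j ∈ range N, w j ^ 2 := by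
      rw [← Fin.sum_univ_eq_sum_range (fun j => w j ^ 2), ← e.sum_comp]
      refine sum_congr rfl fun j _ => ?_
      simp only [w]
      rw [dif_pos j.2]
    have h2 : ∑ j ∈ range N, w j ^ 2 ≤ ∑ j ∈ range (2 * L + N), w j ^ 2 :=
      sum_le_sum_of_subset_of_nonneg (range_subset_range.mpr (by omega)) fun _ _ _ => sq_nonneg _
    have h3 : ∑ j ∈ range (2 * L + N), w j ^ 2 = ∑ j ∈ range (2 * L), w j ^ 2 := by
      rw [sum_range_add]
      have : ∑ x ∈ range N, w (2 * L + x) ^ 2 = 0 :=
        sum_eq_zero fun x _ => by rw [hw2 _ (by omega)]; simp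
      rw [this, add_zero]
    rw [h1]
    refine h2.trans ?_
    rw [h3, sum_pairs, mul_sum]
    refine sum_le_sum fun i _ => ?_
    have h4 : w (2 * i + 1) ≤ w (2 * i) := hwa (by omega)
    have h5 := pow_le_pow_left₀ (hw0 _) h4 2
    linarith
  -- the energy
  let a : ℕ → ℝ := fun i => w (2 * i)
  have ha : Antitone a := fun i j hij => hwa (by omega)
  have hen : ∑ i ∈ range L, (a i - a (i + 1)) ^ 2 ≤ En G g := by
    refine le_trans (sum_le_sum fun i _ => ?_) (En_split G g a ha L)
    rcases (ha (Nat.le_succ i)).lt_or_eq with hlt | heq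
    swap
    · have : a i - a (i + 1) = 0 := by rw [show a (i + 1) = a i from heq]; ring
      rw [this]
      simpa using En_nonneg G _
    -- an edge which jumps over the interval
    have hlt' : w (2 * i + 2) < w (2 * i) := hlt
    have hex : ∃ u v, G.Adj u v ∧ g u ≤ w (2 * i + 2) ∧ w (2 * i) ≤ g v := by
      by_contra hcon
      push Not at hcon
      have hiN : 2 * i < N := by
        by_contra hc
        have h1 : w (2 * i) = 0 := by simp only [w, dif_neg hc]
        have := hw0 (2 * i + 2)
        linarith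
      obtain ⟨v0, hv0⟩ := h0
      set v1 : V := (e ⟨2 * i, hiN⟩).fst with hv1
      have hv1g : g v1 = w (2 * i) := by simp only [w]; rw [dif_pos hiN]
      have hv0g : g v0 ≤ w (2 * i + 2) := by rw [hv0]; exact hw0 _
      obtain ⟨p⟩ := hG.preconnected v0 v1
      -- first cut
      obtain ⟨d1, -, hd1, hd1'⟩ := p.exists_boundary_dart {v | g v ≤ w (2 * i + 2)} hv0g (by
        simp only [Set.mem_ofPred_eq, not_le]; rw [hv1g]; exact hlt')
      obtain ⟨d2, -, hd2, hd2'⟩ := p.exists_boundary_dart {v | g v < w (2 * i)} (by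
        simp only [Set.mem_ofPred_eq]; linarith) (by
        simp only [Set.mem_ofPred_eq, not_lt]; rw [hv1g])
      simp only [Set.mem_ofPred_eq, not_le, not_lt] at hd1 hd1' hd2 hd2'
      have h1 : g d1.snd < w (2 * i) := by
        exact hcon d1.fst d1.snd d1.adj hd1
      have h2 : w (2 * i + 2) < g d2.fst := by
        by_contra hc
        push Not at hc
        exact absurd hd2' (not_le.mpr (hcon d2.fst d2.snd d2.adj hc))
      -- two different half-edges strictly between
      have hmid : ∀ d : G.Dart, w (2 * i + 2) < g d.fst → g d.fst < w (2 * i) →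
          ((e.symm d : Fin N) : ℕ) = 2 * i + 1 := by
        intro d hda hdb
        set j : Fin N := e.symm d with hj
        have hjd : e j = d := by rw [hj]; simp
        have hwj : w (j : ℕ) = g d.fst := by
          simp only [w]
          rw [dif_pos j.2]
          simp only [Fin.eta, hjd]
        have h3 : (j : ℕ) < 2 * i + 2 := by
          by_contra hc
          have := hwa (not_lt.mp hc)
          rw [hwj] at this
          linarith
        have h4 : 2 * i < (j : ℕ) := by
          by_contra hc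
          have := hwa (not_lt.mp hc)
          rw [hwj] at this
          linarith
        omega
      have e1 := hmid d1.symm (by simpa using hd1') (by simpa using h1)
      have e2 := hmid d2 h2 hd2
      have e3 : d1.symm = d2 := by
        apply e.symm.injective
        exact Fin.ext (e1.trans e2.symm)
      have e4 : d2.snd = d1.fst := by rw [← e3]; rfl
      rw [e4] at hd2'
      linarith
    obtain ⟨u, v, huv, hu, hv⟩ := hex
    have h1 := En_ge G (fun x => clip (a (i + 1)) (a i) (g x)) u v huv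
    have h2 : clip (a (i + 1)) (a i) (g u) = a (i + 1) := by
      unfold clip
      have h3 : g u ≤ a (i + 1) := hu
      rw [max_eq_right h3, min_eq_left (ha (Nat.le_succ i))]
    have h3 : clip (a (i + 1)) (a i) (g v) = a i := by
      unfold clip
      have h4 : a i ≤ g v := hv
      exact min_eq_right (h4.trans (le_max_left _ _))
    simp only [h2, h3] at h1
    calc (a i - a (i + 1)) ^ 2 = (a (i + 1) - a i) ^ 2 := by ring
      _ ≤ _ := h1
  have h5 := ftt L hL a (by simp only [a]; exact hw2 _ le_rfl)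
  have hc1 : 0 ≤ 1 - Real.cos (Real.pi / (2 * L + 1)) := by
    have := Real.cos_le_one (Real.pi / (2 * L + 1)); linarith
  have h6 := mul_le_mul_of_nonneg_left hmass hc1
  have h7 : (1 - Real.cos (Real.pi / (2 * L + 1))) * (2 * ∑ i ∈ range L, w (2 * i) ^ 2) =
      (2 - 2 * Real.cos (Real.pi / (2 * L + 1))) * ∑ i ∈ range L, a i ^ 2 := by
    simp only [a]; ring
  rw [h7] at h6
  linarith

/-- a median -/
lemma median {D : Type*} [Fintype D] (f : D → ℝ) (m : ℕ) (hm : 1 ≤ m)
    (hD : Fintype.card D = 2 * m) :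
    ∃ c : ℝ, (univ.filter (fun d => c < f d)).card ≤ m ∧
      (univ.filter (fun d => f d < c)).card ≤ m := by
  classical
  obtain ⟨e, he⟩ := exists_sort f
  have hm' : m < Fintype.card D := by omega
  refine ⟨f (e ⟨m, hm'⟩), ?_, ?_⟩
  · have h1 : univ.filter (fun d => f (e ⟨m, hm'⟩) < f d) ⊆
        (univ : Finset (Fin m)).image (fun i : Fin m => e ⟨(i : ℕ), by have := i.2; omega⟩) := by
      intro d hd
      rw [mem_filter] at hd
      rw [mem_image]
      have hlt : ((e.symm d : Fin _) : ℕ) < m := by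
        by_contra hc
        have h2 : (⟨m, hm'⟩ : Fin (Fintype.card D)) ≤ e.symm d := by
          rw [Fin.le_def]; exact not_lt.mp hc
        have h3 := he h2
        simp only [Equiv.apply_symm_apply] at h3
        linarith [hd.2]
      refine ⟨⟨_, hlt⟩, mem_univ _, ?_⟩
      simp
    refine (card_le_card h1).trans ?_
    refine card_image_le.trans ?_
    simp
  · have h1 : univ.filter (fun d => f d < f (e ⟨m, hm'⟩)) ⊆
        (univ : Finset (Fin m)).image (fun i : Fin m => e ⟨m + (i : ℕ), by have := i.2; omega⟩) := by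
      intro d hd
      rw [mem_filter] at hd
      rw [mem_image]
      have hlt : m ≤ ((e.symm d : Fin _) : ℕ) := by
        by_contra hc
        have h2 : e.symm d ≤ (⟨m, hm'⟩ : Fin (Fintype.card D)) := by
          rw [Fin.le_def]; exact (not_le.mp hc).le
        have h3 := he h2
        simp only [Equiv.apply_symm_apply] at h3
        linarith [hd.2]
      have h4 := (e.symm d).2
      refine ⟨⟨(e.symm d : Fin _) - m, by omega⟩, mem_univ _, ?_⟩
      have : (⟨m + ((e.symm d : Fin _) - m), by omega⟩ : Fin (Fintype.card D)) = e.symm d := by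
        apply Fin.ext; simp; omega
      simp only [this, Equiv.apply_symm_apply]
    refine (card_le_card h1).trans ?_
    refine card_image_le.trans ?_
    simp

theorem main (hG : G.Connected) (hm : 1 ≤ G.edgeFinset.card) (f : V → ℝ) :
    ∃ c : ℝ, (1 - Real.cos (Real.pi / (G.edgeFinset.card + 2))) *
      ∑ v, (G.degree v : ℝ) * (f v - c) ^ 2 ≤ En G f := by
  set m := G.edgeFinset.card with hmdef
  have hD : Fintype.card G.Dart = 2 * m := G.dart_card_eq_twice_card_edges
  obtain ⟨c, hc1, hc2⟩ := median (fun d : G.Dart => f d.fst) m hm hD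
  refine ⟨c, ?_⟩
  set L : ℕ := (m + 1) / 2 with hL
  have hL1 : 1 ≤ L := by omega
  have hL2 : m ≤ 2 * L := by omega
  have hL3 : 2 * L ≤ m + 1 := by omega
  let g : V → ℝ := fun v => max (f v - c) 0
  let h : V → ℝ := fun v => max (c - f v) 0
  have zero_of : ∀ φ : V → ℝ, (∀ v, 0 ≤ φ v) →
      (univ.filter (fun d : G.Dart => 0 < φ d.fst)).card ≤ m → ∃ v, φ v = 0 := by
    intro φ hφ hcard
    by_contra hcon
    push Not at hcon
    have : univ.filter (fun d : G.Dart => 0 < φ d.fst) = univ := by
      ext d; simp only [mem_filter, mem_univ, true_and, iff_true]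
      exact lt_of_le_of_ne (hφ _) (Ne.symm (hcon _))
    rw [this, card_univ, hD] at hcard
    omega
  have hg0 : ∀ v, 0 ≤ g v := fun v => le_max_right _ _
  have hh0 : ∀ v, 0 ≤ h v := fun v => le_max_right _ _
  have hgc : (univ.filter (fun d : G.Dart => 0 < g d.fst)).card ≤ m := by
    refine le_trans (le_of_eq ?_) hc1
    congr 1; ext d
    simp only [mem_filter, mem_univ, true_and, g, lt_max_iff, lt_irrefl, or_false, sub_pos]
  have hhc : (univ.filter (fun d : G.Dart => 0 < h d.fst)).card ≤ m := by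
    refine le_trans (le_of_eq ?_) hc2
    congr 1; ext d
    simp only [mem_filter, mem_univ, true_and, h, lt_max_iff, lt_irrefl, or_false, sub_pos]
  have h1 := core G hG g hg0 L hL1 (hgc.trans hL2) (zero_of g hg0 hgc)
  have h2 := core G hG h hh0 L hL1 (hhc.trans hL2) (zero_of h hh0 hhc)
  have h3 : En G g + En G h ≤ En G f := by
    unfold En
    rw [← mul_add, ← sum_add_distrib]
    refine mul_le_mul_of_nonneg_left ?_ (by norm_num)
    refine sum_le_sum fun u _ => ?_
    rw [← sum_add_distrib]
    refine sum_le_sum fun v _ => ?_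
    by_cases hadj : G.Adj u v
    · simp only [if_pos hadj, g, h]
      rcases le_total (f u) c with a1 | a1 <;> rcases le_total (f v) c with a2 | a2
      · rw [max_eq_right (by linarith : f u - c ≤ 0), max_eq_right (by linarith : f v - c ≤ 0),
          max_eq_left (by linarith : 0 ≤ c - f u), max_eq_left (by linarith : 0 ≤ c - f v)]
        nlinarith
      · rw [max_eq_right (by linarith : f u - c ≤ 0), max_eq_left (by linarith : 0 ≤ f v - c),
          max_eq_left (by linarith : 0 ≤ c - f u), max_eq_right (by linarith : c - f v ≤ 0)]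
        nlinarith [mul_nonneg (sub_nonneg.mpr a1) (sub_nonneg.mpr a2)]
      · rw [max_eq_left (by linarith : 0 ≤ f u - c), max_eq_right (by linarith : f v - c ≤ 0),
          max_eq_right (by linarith : c - f u ≤ 0), max_eq_left (by linarith : 0 ≤ c - f v)]
        nlinarith [mul_nonneg (sub_nonneg.mpr a1) (sub_nonneg.mpr a2)]
      · rw [max_eq_left (by linarith : 0 ≤ f u - c), max_eq_left (by linarith : 0 ≤ f v - c),
          max_eq_right (by linarith : c - f u ≤ 0), max_eq_right (by linarith : c - f v ≤ 0)]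
        nlinarith
    · simp [if_neg hadj]
  have h4 : ∑ v, (G.degree v : ℝ) * (f v - c) ^ 2 =
      ∑ d : G.Dart, g d.fst ^ 2 + ∑ d : G.Dart, h d.fst ^ 2 := by
    rw [← sum_dart G (fun v => (f v - c) ^ 2), ← sum_add_distrib]
    refine sum_congr rfl fun d _ => ?_
    simp only [g, h]
    rcases le_total (f d.fst) c with a1 | a1
    · rw [max_eq_right (by linarith : f d.fst - c ≤ 0),
        max_eq_left (by linarith : 0 ≤ c - f d.fst)]
      ring
    · rw [max_eq_left (by linarith : 0 ≤ f d.fst - c),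
        max_eq_right (by linarith : c - f d.fst ≤ 0)]
      ring
  have h5 : Real.cos (Real.pi / (2 * L + 1)) ≤ Real.cos (Real.pi / (m + 2)) := by
    have hLr : (2 * (L : ℝ)) ≤ m + 1 := by exact_mod_cast hL3
    have hLp : (1 : ℝ) ≤ L := by exact_mod_cast hL1
    have hπ := Real.pi_pos
    apply Real.cos_le_cos_of_nonneg_of_le_pi
    · positivity
    · rw [div_le_iff₀ (by positivity)]; nlinarith
    · exact div_le_div_of_nonneg_left hπ.le (by positivity) (by linarith)
  have h6 : 0 ≤ ∑ v, (G.degree v : ℝ) * (f v - c) ^ 2 :=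
    sum_nonneg fun v _ => by positivity
  have h7 : (1 - Real.cos (Real.pi / (m + 2))) * ∑ v, (G.degree v : ℝ) * (f v - c) ^ 2 ≤
      (1 - Real.cos (Real.pi / (2 * L + 1))) * ∑ v, (G.degree v : ℝ) * (f v - c) ^ 2 :=
    mul_le_mul_of_nonneg_right (by linarith) h6
  rw [h4, mul_add] at h7
  rw [h4]
  linarith

end graph

end Pool.Agent.Y917.RT
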